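import Pool.Agent.Helper17.SLD.Goals
import Pool.Agent.Helper40.SLC.NB2
import Pool.Agent.Helper56.SLC.FRN
import Pool.Agent.Helper79.SLC.NB1

/-! # Project SLD, packet INC: units of `H` in `N` -/

namespace Pool.Agent.Helper17.SLD.PkINC

open Pool.Agent.Helper17.SL Pool.Agent.Helper42.SLC Pool.Agent.Helper17.SLD
open Pool.Agent.Helper51.SigLeo Pool.Agent.Helper51.SixExp NumberField Module TensorProduct

universe u v w x y z

theorem unitsHom_incl {K H N : Type*} [Field K] [Field H] [Field N] [Algebra K H] [Algebra K N]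
    [Algebra H N] (g : N ≃ₐ[K] N) (h : H ≃ₐ[K] H)
    (hgh : ∀ x : H, g (algebraMap H N x) = algebraMap H N (h x)) (u : Additive (𝓞 H)ˣ) :
    unitsHom g (inclUnits H N u) = inclUnits H N (unitsHom h u) := by
  apply Pool.Agent.Helper79.SLC.val_injective
  exact hgh (Pool.Agent.Helper79.SLC.val u)

theorem thm : S_INC.{u, v, w, x, y} := by
  intro F _ K _ H _ _ N _ _ _ _ _ _ _ _ _ _ _ _ _ _ A _ _ χ θ θ' h2 hC hT
  classical
  have hfdKN : FiniteDimensional K N := FiniteDimensional.right F K N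
  have hgalKN : IsGalois K N := IsGalois.tower_top_of_isGalois F K N
  let _ : Fintype (N ≃ₐ[K] N) := Fintype.ofFinite _
  let R : (N ≃ₐ[K] N) →* (N ≃ₐ[F] N) :=
    { toFun := fun g => g.restrictScalars F
      map_one' := rfl
      map_mul' := fun _ _ => rfl }
  let θK : (N ≃ₐ[K] N) →* Aˣ := θ.comp R
  have hθK : ∀ g : N ≃ₐ[K] N, θK g = θ (g.restrictScalars F) := fun _ => rfl
  have hθK' : ∀ g : N ≃ₐ[K] N, θK g = θ' (g.restrictScalars F) := by
    intro g
    rw [hθK, hT.1 (g.restrictScalars F) (fun x => g.commutes x)]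
  have hcompat : Compat χ θK := by
    intro g h hgh
    exact hC (g.restrictScalars F) h hgh
  obtain ⟨s, hs⟩ := Pool.Agent.Helper56.SLC.exists_nontrivial (k₀ := F) (K := K) (N := N) h2
  have hs' : ∃ x : K, s⁻¹ (algebraMap K N x) ≠ algebraMap K N x := by
    obtain ⟨x, hx⟩ := hs
    refine ⟨x, fun h => hx ?_⟩
    have h3 := congrArg s h
    have h4 : s (s⁻¹ (algebraMap K N x)) = algebraMap K N x := by
      rw [← AlgEquiv.mul_apply, mul_inv_cancel]
      rfl
    rw [h4] at h3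
    exact h3.symm
  have hN := Pool.Agent.Helper40.SLC.nb2 F K N A θ θK s h2 hθK hs
  have hN' := Pool.Agent.Helper40.SLC.nb2 F K N A θ' θK s h2 hθK' hs
  have hsum : ∀ (ℓ : Additive (𝓞 N)ˣ →+ A) (v : Additive (𝓞 N)ˣ),
      tw θ ℓ v + tw θ' ℓ v = 2 * tw θK ℓ v := by
    intro ℓ v
    rw [hN, hN', hT.2 s⁻¹ hs', Units.val_neg]
    ring
  have hsurj : Function.Surjective (AlgEquiv.restrictNormalHom (F := K) (K₁ := N) H) :=
    AlgEquiv.restrictNormalHom_surjective (F := K) (K₁ := H) N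
  have hcomm : ∀ (g : N ≃ₐ[K] N) (y : H),
      g (algebraMap H N y) = algebraMap H N (AlgEquiv.restrictNormalHom H g y) :=
    fun g y => (AlgEquiv.restrictNormal_commutes g H y).symm
  have hθχ : ∀ g : N ≃ₐ[K] N, θK g = χ (AlgEquiv.restrictNormalHom H g) := fun g =>
    hcompat g _ (hcomm g)
  set φ : (N ≃ₐ[K] N) →* (H ≃ₐ[K] H) := AlgEquiv.restrictNormalHom (F := K) (K₁ := N) H with hφ
  let m : ℕ := (Finset.univ.filter (fun g : N ≃ₐ[K] N => φ g = 1)).card
  have hm : ∀ h : H ≃ₐ[K] H, (Finset.univ.filter (fun g : N ≃ₐ[K] N => φ g = h)).card = m := by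
    intro h
    exact MonoidHom.card_fiber_eq_of_mem_range φ (hsurj h) (hsurj 1)
  have hm0 : m ≠ 0 := by
    have : 0 < m := Finset.card_pos.2 ⟨1, Finset.mem_filter.2 ⟨Finset.mem_univ _, map_one φ⟩⟩
    omega
  refine ⟨2 * (m : A), mul_ne_zero two_ne_zero (Nat.cast_ne_zero.2 hm0), ?_⟩
  intro ℓ u
  rw [hsum, mul_assoc]
  congr 1
  unfold tw
  rw [← Finset.sum_fiberwise Finset.univ φ, Finset.mul_sum]
  refine Finset.sum_congr rfl fun h _ => ?_
  have h1 : ∀ g ∈ Finset.univ.filter (fun g : N ≃ₐ[K] N => φ g = h),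
      ((θK g⁻¹ : Aˣ) : A) * ℓ (unitsHom g (inclUnits H N u)) =
        ((χ h⁻¹ : Aˣ) : A) * (ℓ.comp (inclUnits H N)) (unitsHom h u) := by
    intro g hg
    rw [Finset.mem_filter] at hg
    rw [hθχ, map_inv, hg.2, unitsHom_incl g h (fun x => by rw [← hg.2]; exact hcomm g x) u]
    rfl
  rw [Finset.sum_congr rfl h1, Finset.sum_const, hm, nsmul_eq_mul]

end Pool.Agent.Helper17.SLD.PkINC
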